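import Pool.Agent.CDC.Count
import Pool.Agent.CDC.Main

/-!
# Circuits with a four-flow contraction lie in five-cycle double covers

Let `G` be a cubic (loopless) multigraph and `C` a circuit of `G` such that the edges of `G` can be
coloured with three colours properly at all vertices off `C` (equivalently: `G / C` has a
nowhere-zero 4-flow). Then `G` has a 5-cycle double cover one member of which is `C`, and the graph
obtained by expanding the vertices off `C` into triangles is coverable by four perfect matchings.
The condition holds if no circuit avoids the vertices of `C`, in particular if `C` is dominating.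
-/

set_option autoImplicit false

namespace Pool.Agent.Results.MP_f4450d_co.FourFlowContraction

open Pool.Agent.CDC



variable {V E : Type}

/-- three colours for the edges, proper at all vertices off `C` -/
def ColourableOff (G : MGraph V E) (C : Set E) : Prop :=
  ∃ col : E → Fin 3, ∀ v, v ∉ G.verts C → ∀ e f, G.inc v e → G.inc v f → e ≠ f → col e ≠ col f

/-- every circuit of `G` has a vertex in common with `C` -/
def AcyclicOff (G : MGraph V E) (C : Set E) : Prop :=
  ∀ D, G.IsCircuit D → ∃ v, v ∈ G.verts C ∧ v ∈ G.verts D

/-- `C` is dominating: every edge of `G` has an end on `C` -/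
def Dominating (G : MGraph V E) (C : Set E) : Prop := ∀ e, ∃ v, v ∈ G.verts C ∧ G.inc v e

theorem Dominating.acyclicOff {G : MGraph V E} {C : Set E}
    (h : Dominating G C) : AcyclicOff G C := by
  rintro D ⟨n, v, a, _, _, _, hD⟩
  obtain ⟨w, hw, hwe⟩ := h (a 0)
  exact ⟨w, hw, a 0, hD ▸ Set.mem_range_self 0, hwe⟩

theorem main_of_colourable {V E : Type} [Finite V] [Finite E] (G : MGraph V E) (hG : G.Cubic)
    (C : Set E) (hC : G.IsCircuit C) (h : ColourableOff G C) :
    (∃ D : Fin 5 → Set E, G.IsCDC D ∧ D 0 = C) ∧
      (G.expand hG {v | v ∉ G.verts C}).Coverable4 := by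
  have := Fintype.ofFinite V
  have := Fintype.ofFinite E
  obtain ⟨n, ⟨K⟩⟩ := hC.circ
  obtain ⟨col, hcol⟩ := h
  obtain ⟨dd, c, xe, h1, h2, h3⟩ := core K hG col hcol
  exact cover_of_core K hG dd c xe h1 h2 h3

theorem colourable_of_acyclic {V E : Type} [Finite V] (G : MGraph V E) (hG : G.Cubic)
    (C : Set E) (h : AcyclicOff G C) : ColourableOff G C := by
  obtain ⟨col, hcol⟩ := exists_col hG _ {v | v ∉ G.verts C} rfl (fun D hD => by
    obtain ⟨w, hw, hw'⟩ := h D hD
    exact ⟨w, hw', fun h => h hw⟩)
  exact ⟨col, hcol⟩

/-- **Result.** Let `G` be a cubic multigraph and `C` a circuit of `G` such that the edges have a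
3-colouring which is proper at all vertices off `C` (that is, `G / C` has a nowhere-zero 4-flow), or
`G - V(C)` is acyclic, or `C` is dominating. Then
1. `G` has a 5-cycle double cover with `C` as one of its members;
2. expanding the vertices off `C` makes `G` coverable by four perfect matchings, that is,
   `T(G)` is defined and `T(G) ≤ |V(G)| - |V(C)|`;
3. if at most a tenth of the vertices are off `C`, then Q1 is true for `G`;
4. if `C` is dominating, then `T(G) ≤ |V(G)| / 4`. -/
theorem result {V E : Type} [Finite V] [Finite E] (G : MGraph V E) (hG : G.Cubic)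
    (C : Set E) (hC : G.IsCircuit C)
    (h : ColourableOff G C ∨ AcyclicOff G C ∨ Dominating G C) :
    (∃ D : Fin 5 → Set E, G.IsCDC D ∧ D 0 = C) ∧
    (G.expand hG {v | v ∉ G.verts C}).Coverable4 ∧
    (10 * {v | v ∉ G.verts C}.ncard ≤ Nat.card V →
      ∃ U : Set V, 10 * U.ncard ≤ Nat.card V ∧ (G.expand hG U).Coverable4) ∧
    (Dominating G C → ∃ U : Set V, 4 * U.ncard ≤ Nat.card V ∧ (G.expand hG U).Coverable4) := by
  have hcol : ColourableOff G C := by
    rcases h with h | h | h
    · exact h
    · exact colourable_of_acyclic G hG C h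
    · exact colourable_of_acyclic G hG C h.acyclicOff
  obtain ⟨h1, h2⟩ := main_of_colourable G hG C hC hcol
  exact ⟨h1, h2, fun h10 => ⟨_, h10, h2⟩, fun hd => ⟨_, four_mul_off hG hC hd, h2⟩⟩

end Pool.Agent.Results.MP_f4450d_co.FourFlowContraction
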