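import Pool.Agent.CDC.FewOdd

/-!
# Q1 for cubic graphs of oddness two

`M` is a perfect matching of the cubic multigraph `G` such that at most two circuits of the
2-factor `G - M` are odd. Three edge-disjoint paths between the odd circuits in the graph which
arises by contraction of all the circuits give a 5-cycle double cover one member of which misses
fewer vertices than the number of edges of the paths.
-/

set_option autoImplicit false

namespace Pool.Agent.Results.MP_f4450d_co.OddnessTwo

open Pool.Agent.CDC

/-- **Result.** `G` a bridgeless cubic multigraph, `M` a perfect matching such that the 2-factor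
`G - M` has `m` circuits, at most two of them odd. Then there is a 5-cycle double cover `D` such
that for the set `U` of the vertices missed by `D 0`: `G_U` is coverable by four perfect
matchings, and
* `|U| ≤ 3 m - 4`, and `U` is empty if no circuit of `G - M` is odd;
* if `G` is cyclically `2 r`-edge-connected, then `|U| + 1 ≤ 3 |V| / (4 r + 2)` or `U` is empty;
* `|U| ≤ |V| / 10` if `10 (3 m - 4) ≤ |V|`, or if `G` is cyclically 14-edge-connected. -/
theorem result {V E : Type} [Finite V] [Finite E] (G : MGraph V E) (hG : G.Cubic)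
    (hb : G.Bridgeless) (M : Set E) (hM : G.IsPM M) (ho : (G.oddCircuits M).ncard ≤ 2) :
    ∃ (D : Fin 5 → Set E) (U : Set V), G.IsCDC D ∧ U = {v | v ∉ G.verts (D 0)} ∧
      (G.expand hG U).Coverable4 ∧
      (U.ncard ≤ 3 * {C | G.IsCircuit C ∧ C ⊆ Mᶜ}.ncard - 4 ∧
        (G.oddCircuits M = ∅ → U = ∅)) ∧
      (∀ r, 1 ≤ r → G.CyclicConn (2 * r) →
        U = ∅ ∨ (4 * r + 2) * (U.ncard + 1) ≤ 3 * Nat.card V) ∧
      (10 * (3 * {C | G.IsCircuit C ∧ C ⊆ Mᶜ}.ncard - 4) ≤ Nat.card V ∨ G.CyclicConn 14 →
        10 * U.ncard ≤ Nat.card V) := by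
  obtain ⟨D, hD, h1, h0, h2⟩ := few_odd hG hb hM ho
  refine ⟨D, _, hD, rfl, coverable_of_cdc hG D hD, ⟨h1, fun h => ?_⟩, fun r hr hc => ?_,
    fun h => ?_⟩
  · rw [← Set.ncard_eq_zero]
    exact h0 h
  · rcases h2 r hr hc with h3 | h3
    · left
      rwa [Set.ncard_eq_zero] at h3
    · exact Or.inr h3
  · rcases h with h | h
    · omega
    · rcases h2 7 (by norm_num) h with h3 | h3
      · omega
      · omega

end Pool.Agent.Results.MP_f4450d_co.OddnessTwo
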