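import Pool.Agent.CDC.ResFinal
import Pool.Agent.CDC.NPoint

/-!
# Five-cycle double covers and `T(G) ≤ 2 |V| / 5` for cubic graphs of resistance at most nine

If the edges of a bridgeless cubic multigraph have a 3-colouring which is proper at all but at
most nine vertices, then the graph has a 5-cycle double cover. In the 3-edge-connected case the
nine vertices lie on a circuit `C` (nine point theorem), the colouring is proper off `C`, and `C`
is a member of a 5-cycle double cover.
-/

set_option autoImplicit false

namespace Pool.Agent.Results.MP_f4450d_co.Resistance

open Pool.Agent.CDC

/-- **Result.** Let `G` be a bridgeless cubic multigraph (bridgeless: no cut consists of one edge)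
such that
* the edges of `G` have a 3-colouring which is proper at all but at most nine vertices, or
* `G` has a perfect matching `M` such that at most nine circuits of the 2-factor `G - M` are odd.
Then `G` has a 5-cycle double cover, and there is a set `U` of at most `2 |V| / 5` vertices such
that `G_U` is coverable by four perfect matchings. -/
theorem result {V E : Type} [Finite V] [Finite E] (G : MGraph V E) (hG : G.Cubic)
    (hb : G.Bridgeless)
    (h : G.NearColourable 9 ∨ ∃ M : Set E, G.IsPM M ∧ (G.oddCircuits M).ncard ≤ 9) :
    (∃ D : Fin 5 → Set E, G.IsCDC D) ∧
      ∃ U : Set V, 5 * U.ncard ≤ 2 * Nat.card V ∧ (G.expand hG U).Coverable4 := by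
  have hk : G.NearColourable 9 := by
    rcases h with h | ⟨M, hM, ho⟩
    · exact h
    · exact near_of_matching hG hM ho
  exact res_of_points 9 (fun V E _ _ _ G hG h3 X hX => nine_point G hG h3 X hX) G hG hb hk

end Pool.Agent.Results.MP_f4450d_co.Resistance
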