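import Pool.Agent.CDC.TwoOne

/-!
# Q1 for cubic graphs with a 2-factor with at most two circuits

Let `G` be a bridgeless cubic (loopless) multigraph with a 2-factor `C₁ ∪ C₂` which consists of at
most two circuits. Then at most one vertex has to be expanded, and at most a tenth of the
vertices. If the 2-factor is one circuit, or the number of edges joining the two circuits is not
`1` modulo `4`, then no vertex has to be expanded, and `G` has a 5-cycle double cover which
contains the 2-factor.
-/

set_option autoImplicit false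

namespace Pool.Agent.Results.MP_f4450d_co.TwoCircuitFactors

open Pool.Agent.CDC

/-- **Result.** `G` a bridgeless cubic multigraph, `M` a perfect matching such that the
complementary 2-factor is the union of the circuits `C₁` and `C₂` (equal or disjoint). Then
1. `T(G) ≤ 1` and `T(G) ≤ |V(G)| / 10`, so Q1 is true for `G`;
2. if `C₁ = C₂` or the number of edges joining `C₁` and `C₂` is not `1` modulo `4`, then
   `T(G) = 0`, and there is a 5-cycle double cover with the 2-factor as one of its members. -/
theorem result {V E : Type} [Finite V] [Finite E] (G : MGraph V E) (hG : G.Cubic)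
    (hb : G.Bridgeless) (M : Set E) (hM : G.IsPM M) (C₁ C₂ : Set E) (h1 : G.IsCircuit C₁)
    (h2 : G.IsCircuit C₂) (hU : C₁ ∪ C₂ = Mᶜ) :
    (∃ U : Set V, U.ncard ≤ 1 ∧ 10 * U.ncard ≤ Nat.card V ∧ (G.expand hG U).Coverable4) ∧
    ((C₁ = C₂ ∨ (G.joining C₁ C₂).ncard % 4 ≠ 1) →
      (G.expand hG ∅).Coverable4 ∧ G.Coverable4 ∧
        ∃ D : Fin 5 → Set E, G.IsCDC D ∧ D 0 = Mᶜ) := by
  have := Fintype.ofFinite V
  have := Fintype.ofFinite E
  have h3 := (two_class hG hb hM h1 h2 hU).1
  obtain ⟨D, hD, hD1, hD10⟩ := two_one hG hb hM h1 h2 hU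
  refine ⟨⟨_, hD1, ?_, coverable_of_cdc hG D hD⟩, fun h => ?_⟩
  · rw [Nat.card_eq_fintype_card]
    exact hD10
  · obtain ⟨h4, h5⟩ := h3 h
    exact ⟨coverable4_expand_empty hG h5, h5, h4⟩

end Pool.Agent.Results.MP_f4450d_co.TwoCircuitFactors
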